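import Pool.Agent.U213.EC.OverMain

/-!
# Deligne's conjecture for the Artin twists of CM elliptic curves when the order grows little

Let `A` be an elliptic curve over `ℚ` with complex multiplication, and let `L / k` be a Galois extension of
number fields with group `Q`. Deligne's conjecture holds at `s = 1` for `h¹(A / k) ⊗ ρ`, for all
representations `ρ` of `Q` over all number fields `E`, if

1. `Q` is solvable and for some linear character `λ` of `Q`
  `ord L(A / L, s) < ord L(A / k, λ, s) + p` at `s = 1` for all prime divisors `p` of the degree of `L / k`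
  (for `λ = 1`: the order of the zero grows by less than the least prime divisor of the degree); or, more
  generally, if
2. `N` is a solvable normal subgroup of `Q` such that all irreducible characters of `Q / [N, N]` are
  induced from linear characters of subgroups, and for some linear character `λ` of `N`
  `ord L(A / L, s) < ord L(A / L^N, λ, s) + p` for all prime divisors `p` of the order of `N`.

There is no bound on the orders themselves. The data, the L-functions and the periods are explicit
(`Pool.Agent.U213.EC.Data`): a Weierstrass equation of `A` over `ℤ`, its period lattice, a nonzero real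
period `Ω₊` and a nonzero purely imaginary period `Ω₋`, a number field `F`, Galois over `ℚ` with group `Gal(F/ℚ)`,
embedded in `ℂ`, complex conjugation `c`, an element `x` of `F` with nonzero resolvents
`R(λ) = ∑_σ λ(σ) ι(σ x)`, a finite set `S` of prime numbers which contains the bad and the ramified ones,
and arithmetic Frobenius elements at the other prime numbers. The field `k` is the fixed field of the
subgroup `H` of `Gal(F/ℚ)`, and `L` is the fixed field of the kernel of the surjective homomorphism `π : H → Q`.
The motive over `ℚ` is the restriction of scalars of `h¹(A / k) ⊗ ρ`, that is, `h¹(A) ⊗ σ` for the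
representation `σ` of `Gal(F/ℚ)` induced from `ρ ∘ π`; it has odd weight.

`D.IsL f ℓ` says that `ℓ` is the function `L(A, f, s)` for the character `f` of `Gal(F/ℚ)` (without the Euler
factors at the primes in `S`). `D.Deligne σ`: there is `e ∈ E` such that for all embeddings `τ` of `E` in
`ℂ` the number `L(A, τσ, 1)` is `τ(e) R(det τσ) Ω₊ ^ d⁺ Ω₋ ^ d⁻`, with the multiplicities `d⁺`, `d⁻` of
the eigenvalues `1`, `-1` of complex conjugation.

The hypothesis `MonomialTheorem` is a published theorem, Deligne's conjecture for the critical values of Hecke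
L-functions (Blasius, Harder, Kings–Sprang, Kufner): the case where `σ` is induced from a linear
character of a subgroup.

The proof uses `Pool.Agent.R389.main_small` for the group `Q`; new are the comparison of the product of the
periods of the constituents with the period of the representation, the descent to arbitrary coefficient
fields `E`, the general base field `k` (`Pool.Agent.U213.EC`), and that no conjecture for the
representations which are trivial on `[N, N]` has to be assumed.
-/

set_option autoImplicit false

open Pool.Agent.U213.EC Pool.Agent.R389 Pool.Agent.H541R3.ART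

namespace Pool.Agent.Results.MP_cd171c_nt.CMCurvesSmallGrowth

theorem result (monomial : MonomialTheorem)
    (F : Type) [Field F] [NumberField F] [IsGalois ℚ F] (D : Data F) (cm : D.CM)
    -- the extension `L / k` with group `Q`, and the L-function of `A` over `L`
    (H : Subgroup (F ≃ₐ[ℚ] F)) (Q : Type) [Group Q] [Finite Q] (π : H →* Q) (hπ : Function.Surjective π)
    (ℓ : ℂ → ℂ) (hℓ : D.IsL (ind (π.ker.map H.subtype) (fun _ => 1)) ℓ)
    -- a representation `ρ` of `Q` over `E`, and the representation `σ` induced from `ρ ∘ π`
    (E : Type) [Field E] [NumberField E] (n : ℕ) (ρ : Q →* Matrix (Fin n) (Fin n) E)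
    (m : ℕ) (σ : (F ≃ₐ[ℚ] F) →* Matrix (Fin m) (Fin m) E)
    (hσ : ∀ g, (σ g).trace = ind H (fun h => (ρ (π h)).trace) g) :
    -- 1. solvable extensions, a linear character of `Q`
    (Group.IsSolvable Q → ∀ (lam : Q →* ℂˣ) (ℓ₁ : ℂ → ℂ),
      D.IsL (ind H (fun h => ((lam (π h) : ℂˣ) : ℂ))) ℓ₁ →
      (∀ p : ℕ, p.Prime → p ∣ Nat.card Q →
        meromorphicOrderAt ℓ 1 < meromorphicOrderAt ℓ₁ 1 + p) → D.Deligne σ) ∧
    -- 2. a solvable normal subgroup `N` of `Q` and a linear character of `N`
    ∀ (N : Subgroup Q) [N.Normal], Group.IsSolvable N →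
      (∀ χ ∈ Irr Q, (∀ k ∈ ⁅N, N⁆, χ k = χ 1) →
        ∃ (U : Subgroup Q) (ψ : U →* ℂˣ), χ = ind U (fun u => ((ψ u : ℂˣ) : ℂ))) →
      ∀ (lam : N →* ℂˣ) (ℓ₁ : ℂ → ℂ),
      D.IsL (ind H (fun h => ind N (fun x => ((lam x : ℂˣ) : ℂ)) (π h))) ℓ₁ →
      (∀ p : ℕ, p.Prime → p ∣ Nat.card N →
        meromorphicOrderAt ℓ 1 < meromorphicOrderAt ℓ₁ 1 + p) → D.Deligne σ :=
  ⟨fun hQ lam _ hℓ₁ hz => Data.over_solvable monomial D cm H π hπ hQ lam hℓ hℓ₁ hz E n ρ m σ hσ,
    fun N _ hN hmono lam _ hℓ₁ hz =>
      Data.over_small monomial D cm H π hπ N hN hmono lam hℓ hℓ₁ hz E n ρ m σ hσ⟩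

end Pool.Agent.Results.MP_cd171c_nt.CMCurvesSmallGrowth
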