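import Mathlib
import Pool.Agent.U157.EC.An

/-!
# Deligne's conjecture for the Artin twists of CM elliptic curves, zeros of any order

Let `A` be an elliptic curve over `ℚ` with complex multiplication and let `L / k` be a Galois extension of number
fields with group `Q`. The motives `h¹(A / k) ⊗ ρ` have odd weight and `s = 1` is their central critical point, where
zeros of high order have to be expected (Birch and Swinnerton-Dyer). Here there is no condition on the orders of
the zeros, and the group `Q` need not be solvable: only the set of the *special* characters matters, the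
irreducible characters `χ` of `Q` for which `L(A / k, χ, s)` has a zero at `s = 1` (or a pole; there are none).

`Pool.Agent.R389.AN Q`: the group `Q` has an abelian normal subgroup with nilpotent quotient.

**Theorem.** (A) Let `K` be a normal subgroup of `Q` on which all special characters are trivial. Deligne's conjecture
holds at `s = 1` for `h¹(A / k) ⊗ ρ`, and `L(A / k, ρ, 1) ≠ 0`, for all representations `ρ` of `Q` over number
fields without nonzero vectors fixed by `K`. It holds for all representations of `Q` over all number fields if `Q / K`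
has an abelian normal subgroup with nilpotent quotient, or if `Q / K` is solvable and the order of the zero grows little in
`L / k`: for some linear character `λ` of `Q / K` the order of `L(A / L, s)` is less than the order of
`L(A / k, λ, s)` plus `p`, for all prime divisors `p` of the order of `Q / K`.
(B) If every special character has a small image (it is trivial on a normal subgroup `K` such that `Q / K` has an
abelian normal subgroup with nilpotent quotient, or it is induced from a linear character of a normal
subgroup with nilpotent quotient), then it holds for all representations of `Q` over all number fields.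
(C) Let `Q` be isomorphic to a subgroup of `S_n`, `n ≥ 5`, which contains `A_n`, and let all special characters have
degree at most `r < (2 ^ j - 1) ⌊n / 2 ^ j⌋` for some `j ≥ 2`. Then Deligne's conjecture holds for all representations of `Q`
over all number fields, and `L(A / k, ρ, 1) ≠ 0` if `ρ` has no nonzero vectors fixed by the even permutations.

The data are explicit (`Pool.Agent.U213.EC.Data`): a Weierstrass equation of `A` over `ℤ`, its period lattice, a
nonzero real period `Ω₊` and a nonzero purely imaginary period `Ω₋`, a number field `F`, Galois over `ℚ` with group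
`Gal(F/ℚ)`, embedded in `ℂ`, complex conjugation `c`, an element `x` of `F` with nonzero resolvents
`R(λ) = ∑_σ λ(σ) ι(σ x)`, a finite set `S` of prime numbers which contains the bad and the ramified ones, and
arithmetic Frobenius elements at the other prime numbers. The field `k` is the fixed field of the subgroup `H`
of `Gal(F/ℚ)`, and `L` is the fixed field of the kernel of the surjective homomorphism `π : H → Q`. The motive
over `ℚ` is the restriction of scalars of `h¹(A / k) ⊗ ρ`, that is, `h¹(A) ⊗ σ` for the representation `σ` of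
`Gal(F/ℚ)` induced from `ρ ∘ π`. `D.IsL f ℓ` says that `ℓ` is the function `L(A, f, s)` for the character `f` of
`Gal(F/ℚ)` (without the Euler factors at the primes in `S`). `D.Deligne σ`: there is `e ∈ E` such that for all
embeddings `τ` of `E` in `ℂ` the number `L(A, τσ, 1)` is `τ(e) R(det τσ) Ω₊ ^ d⁺ Ω₋ ^ d⁻`, with the multiplicities
`d⁺`, `d⁻` of the eigenvalues `1`, `-1` of complex conjugation.

The hypothesis `MonomialTheorem` is a published theorem, Deligne's conjecture for the critical values of Hecke
L-functions (Blasius, Harder, Kings–Sprang, Kufner): the case where `σ` is induced from a linear character of a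
subgroup.

The proof. The relative Brauer theorem (`Pool.Agent.R389`) writes the characters which are nontrivial on `K` as
integral combinations of monomial characters without zeros, and the characters of a group with an
abelian normal subgroup and nilpotent quotient are monomial. In (B) the kernels of the special characters have an intersection of
the same kind; in (C) the special characters are trivial on the even permutations (`Pool.Agent.N855`). The bridge to the explicit data is the one of `Pool.Agent.U213.EC`.
-/

set_option autoImplicit false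

open Pool.Agent.U213.EC Pool.Agent.R389 Pool.Agent.H541R3.ART

namespace Pool.Agent.Results.MP_cd171c_nt.CMCurvesSmallImage

section

variable {F : Type} [Field F] [NumberField F] [IsGalois ℚ F] (D : Data F)
  (H : Subgroup (F ≃ₐ[ℚ] F)) {Q : Type} [Group Q] (π : H →* Q)

/-- `σ` is the representation of `Gal(F/ℚ)` induced from `ρ ∘ π` (it has the induced character). -/
def Induced {E : Type} [Field E] {n m : ℕ} (ρ : Q →* Matrix (Fin n) (Fin n) E)
    (σ : (F ≃ₐ[ℚ] F) →* Matrix (Fin m) (Fin m) E) : Prop :=
  ∀ g, (σ g).trace = ind H (fun h => (ρ (π h)).trace) g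

/-- Deligne's conjecture at `s = 1` for `h¹(A / k) ⊗ ρ`, for all representations `ρ` of `Q` over all number
fields `E`. -/
def Holds : Prop :=
  ∀ (E : Type) [Field E] [NumberField E] (n : ℕ) (ρ : Q →* Matrix (Fin n) (Fin n) E)
    (m : ℕ) (σ : (F ≃ₐ[ℚ] F) →* Matrix (Fin m) (Fin m) E), Induced H π ρ σ → D.Deligne σ

/-- Deligne's conjecture at `s = 1` for `h¹(A / k) ⊗ ρ` and `L(A / k, τρ, 1) ≠ 0` for all embeddings `τ` of `E`, for all
representations `ρ` of `Q` over all number fields `E` which have no nonzero vector fixed by `N`. -/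
def HoldsNonzero (N : Subgroup Q) : Prop :=
  ∀ (E : Type) [Field E] [NumberField E] (n : ℕ) (ρ : Q →* Matrix (Fin n) (Fin n) E),
    (∀ v : Fin n → E, (∀ k ∈ N, (ρ k).mulVec v = v) → v = 0) →
    ∀ (m : ℕ) (σ : (F ≃ₐ[ℚ] F) →* Matrix (Fin m) (Fin m) E), Induced H π ρ σ →
      D.Deligne σ ∧ ∀ (τ : E →+* ℂ) (ℓ : ℂ → ℂ), D.IsL (fun g => τ (σ g).trace) ℓ →
        meromorphicOrderAt ℓ 1 = 0

/-- `Q / N` is solvable, and for a linear character `λ` of `Q / N` the order at `s = 1` of `L(A / L, s)` is less
than the order of `L(A / k, λ, s)` plus `p` for all prime divisors `p` of the order of `Q / N`. -/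
def SmallGrowth (N : Subgroup Q) [N.Normal] : Prop :=
  Group.IsSolvable (Q ⧸ N) ∧ ∃ (ℓ : ℂ → ℂ) (lam : (Q ⧸ N) →* ℂˣ) (ℓ₁ : ℂ → ℂ),
    D.IsL (ind (π.ker.map H.subtype) (fun _ => 1)) ℓ ∧
    D.IsL (ind H (fun h => ((lam (QuotientGroup.mk (π h)) : ℂˣ) : ℂ))) ℓ₁ ∧
    ∀ p : ℕ, p.Prime → p ∣ Nat.card (Q ⧸ N) →
      meromorphicOrderAt ℓ 1 < meromorphicOrderAt ℓ₁ 1 + p

/-- `χ` is irreducible and `L(A / k, χ, s)` has a zero (or a pole) at `s = 1`. -/
def Special (χ : Q → ℂ) : Prop :=
  χ ∈ Irr Q ∧ ∃ ℓ : ℂ → ℂ, D.IsL (ind H (fun h => χ (π h))) ℓ ∧ meromorphicOrderAt ℓ 1 ≠ 0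

end

/-- The image of the irreducible character `χ` has an abelian normal subgroup with nilpotent quotient: `χ` is trivial
on a normal subgroup `K` such that `G / K` has this property (for instance linear characters,
characters with nilpotent or metabelian image); or `χ` is induced from a linear character of a normal subgroup `H`
with nilpotent quotient `G / H` (for instance all monomial characters of degree two). -/
def SmallImage {G : Type} [Group G] (χ : G → ℂ) : Prop :=
  (∃ (K : Subgroup G) (_ : K.Normal), (∀ k ∈ K, χ k = χ 1) ∧ AN (G ⧸ K)) ∨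
  (∃ (H : Subgroup G) (_ : H.Normal) (lam : H →* ℂˣ), Group.IsNilpotent (G ⧸ H) ∧
    χ = ind H (fun h => ((lam h : ℂˣ) : ℂ)))

end Pool.Agent.Results.MP_cd171c_nt.CMCurvesSmallImage

open Pool.Agent.Results.MP_cd171c_nt.CMCurvesSmallImage

/-- **Deligne's conjecture for the Artin twists of CM elliptic curves, zeros of any order.** -/
theorem Pool.Agent.Results.MP_cd171c_nt.CMCurvesSmallImage.result (monomial : MonomialTheorem)
    (F : Type) [Field F] [NumberField F] [IsGalois ℚ F] (D : Data F) (cm : D.CM)
    -- the extension `L / k` with group `Q`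
    (H : Subgroup (F ≃ₐ[ℚ] F)) (Q : Type) [Group Q] [Finite Q] (π : H →* Q) (hπ : Function.Surjective π) :
    (∀ (K : Subgroup Q) [K.Normal], (∀ χ, Special D H π χ → ∀ k ∈ K, χ k = χ 1) →
      HoldsNonzero D H π K ∧ (AN (Q ⧸ K) ∨ SmallGrowth D H π K → Holds D H π)) ∧
    ((∀ χ, Special D H π χ → SmallImage χ) → Holds D H π) ∧
    (∀ (r n j : ℕ) (f : Q →* Equiv.Perm (Fin n)), 5 ≤ n → 2 ≤ j →
      r < (2 ^ j - 1) * (n / 2 ^ j) → Function.Injective f → alternatingGroup (Fin n) ≤ f.range →
      (∀ χ, Special D H π χ → ∃ d : ℕ, d ≤ r ∧ χ 1 = d) →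
      Holds D H π ∧ HoldsNonzero D H π ((alternatingGroup (Fin n)).comap f)) := by
  have hA : ∀ (K : Subgroup Q) [K.Normal], (∀ χ, Special D H π χ → ∀ k ∈ K, χ k = χ 1) →
      HoldsNonzero D H π K ∧ (AN (Q ⧸ K) ∨ SmallGrowth D H π K → Holds D H π) := by
    intro K _ hK
    have h1 : Pool.Agent.U157.EC.Const D H π K :=
      Pool.Agent.U157.EC.const_of_special (fun χ hχ h0 => hK χ ⟨hχ, h0⟩)
    refine ⟨fun E _ _ n ρ hρ m σ hσ => ?_, fun hQ E _ _ n ρ m σ hσ => ?_⟩
    · exact Pool.Agent.U157.EC.ec_new monomial cm hπ K h1 E n ρ hρ m σ hσ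
    · refine Pool.Agent.U157.EC.ec_all monomial cm hπ (fun E _ _ ζ hζ l P A => ?_) E n ρ m σ hσ
      rcases hQ with hQ | ⟨hs, ℓ, lam, ℓ₁, hℓ, hℓ₁, hz⟩
      · exact ⟨K, inferInstance, hQ, h1 E ζ hζ l P A⟩
      · exact Pool.Agent.U157.EC.small_up hπ h1 hℓ hs lam hℓ₁ hz E ζ hζ l P A
  refine ⟨hA, fun hs => ?_, fun r n j f hn hj hlt hf hA' hr => ?_⟩
  · obtain ⟨K, hKn, hK, hKa⟩ := Pool.Agent.U157.DL.exists_kernel
      (Z := fun χ => Special D H π χ) (fun χ hχ h0 => by
        rcases hs χ h0 with ⟨K, hKn, h1, h2⟩ | ⟨H, hHn, lam, h1, h2⟩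
        · exact ⟨K, hKn, h1, h2⟩
        · refine ⟨⁅H, H⁆, inferInstance, fun k hk => ?_, Pool.Agent.U157.DL.an_comm H h1⟩
          rw [h2]
          exact Pool.Agent.U157.DL.ind_comm H lam hk)
    exact (hA K (fun χ hχ => hK χ hχ.1 hχ)).2 (Or.inl hKa)
  · obtain ⟨h1, h2, h3⟩ := Pool.Agent.U157.DL.sym_setup hn hj hlt f hf hA'
    have h4 := hA _ (fun χ hχ => by
      obtain ⟨d, hd, hd1⟩ := hr χ hχ
      exact Pool.Agent.U157.DL.small_trivial _ h2 hχ.1 hd1 hd)
    exact ⟨h4.2 (Or.inl (h3 h1)), h4.1⟩
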