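import Pool.Agent.U143.RG.Del3

/-!
# Deligne's period conjecture for the Artin twists of an elliptic curve at the central point

Let `E` be an elliptic curve over a number field `K` (the motive `h^1(E)` has weight one) and `F/K` a finite
Galois extension with group `G`; `s = 1` is the critical point if `F` is totally real. `T` is a family of
functions with the formal properties of the L-functions `L(E ⊗ χ, s)`, `χ` an irreducible complex character of
`G`, the number field `k` contains the roots of unity of order the exponent of `G`, and `P τ χ` is the component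
at the embedding `τ` of `k` of the Deligne period of the twist of `h^1(E)` which belongs to `χ` at `τ`.
`Pool.Agent.R389.Deligne (fun _ => T.L) P 1 f` is Deligne's conjecture at `s = 1` for the twist of `E` by the
`k`-valued character `f` of `G`: there is one element `e` of `k` such that for every embedding `τ` the value
of the L-function is `τ e` times the period.

Hypothesis: the conjecture at `s = 1` for the twists of `E` by the linear characters over those intermediate
fields `F^U` over which `F` is SOLVABLE. If `K` is totally real, then `E` becomes modular over suitable totally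
real `F` (Taylor), and by descent (Langlands) `E` is modular over these `F^U`, so that Shimura's theorem on the
critical values of Hilbert modular forms applies. Over the other intermediate fields, in particular over `K`,
the L-functions are only known to be meromorphic, and if `L(E/F, 1) = 0` Brauer's theorem gives no information.

* If the order at `s = 1` of `L(E/F, s)` is at most two, then the conjecture holds at `s = 1` for ALL Artin
  twists of `E`, for every group `G`. There is no exceptional case: the root number of the twist by a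
  quaternion character is `1` (Rohrlich, Sabitova), so that its L-function has no simple zero at `s = 1`.
* For larger orders `r` let the normal subgroup `N` be built from direct products of groups `A_m` (`m ≥ 8`,
  `r ≤ m - 3`, or `r ≤ m - 2` and `m` not prime), `SL_2(q)` (`q` even, `r ≤ q - 2`) and from abelian groups
  with more than `r` conjugates of each nontrivial linear character. Then `L(E ⊗ ρ, 1) ≠ 0` and the conjecture
  holds for all `ρ` without vectors fixed by `N`; it holds for the linear characters of all `U` such that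
  `U N / N` is solvable, and for all `ρ` if `G / N` is abelian-by-nilpotent, for example for `G = S_n`,
  `n ≥ r + 3`.

The proof uses two new theorems on class functions with nonnegative multiplicities at the linear characters of
the solvable subgroups: those of degree at most two are Heilbronn functions
(`Pool.Agent.U143.SH.isHeilbronn_of_sol`), and those of degree at most `r` are constant on `N`
(`Pool.Agent.U143.RG`); and the relative Brauer theorem and the classification of the Heilbronn functions of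
degree two of the starting library (`Pool.Agent.R389`, `Pool.Agent.H302R2`).
-/

set_option autoImplicit false
open NumberField Filter Topology
open Classical

namespace Pool.Agent.Results.MP_cd171c_nt.EllipticCurves

open IsDedekindDomain
open Pool.Agent.H541R3.ART (Irr)
open Pool.Agent.R389 (ind IsDecomp)
open Pool.Agent.H302R2 (quatChar)

/-- `M v` is, for every `v`, an integral model of `E` with discriminant minimal at `v`. -/
def MinimalModels {K : Type} [Field K] [NumberField K] (E : WeierstrassCurve K)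
    (M : HeightOneSpectrum (𝓞 K) → WeierstrassCurve (𝓞 K)) : Prop :=
  ∀ v : HeightOneSpectrum (𝓞 K),
    (∃ C : WeierstrassCurve.VariableChange K, C • E = (M v).map (algebraMap (𝓞 K) K)) ∧
    ∀ W : WeierstrassCurve (𝓞 K),
      (∃ C : WeierstrassCurve.VariableChange K, C • E = W.map (algebraMap (𝓞 K) K)) →
        ∀ n : ℕ, (M v).Δ ∈ v.asIdeal ^ n → W.Δ ∈ v.asIdeal ^ n

/-- The Euler product of the problem, computed from the reductions of the models `M v`. -/
noncomputable def LSeries {K : Type} [Field K] [NumberField K]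
    (M : HeightOneSpectrum (𝓞 K) → WeierstrassCurve (𝓞 K)) (s : ℂ) : ℂ :=
  ∏' v : HeightOneSpectrum (𝓞 K),
    (1 - ((((Ideal.absNorm v.asIdeal : ℕ) : ℤ) -
          ((Nat.card {p : (𝓞 K ⧸ v.asIdeal) × (𝓞 K ⧸ v.asIdeal) //
            p.2 ^ 2 + Ideal.Quotient.mk v.asIdeal (M v).a₁ * p.1 * p.2
              + Ideal.Quotient.mk v.asIdeal (M v).a₃ * p.2
            = p.1 ^ 3 + Ideal.Quotient.mk v.asIdeal (M v).a₂ * p.1 ^ 2
              + Ideal.Quotient.mk v.asIdeal (M v).a₄ * p.1
              + Ideal.Quotient.mk v.asIdeal (M v).a₆} : ℕ) : ℤ) : ℤ) : ℂ)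
          * ((Ideal.absNorm v.asIdeal : ℕ) : ℂ) ^ (-s)
      + (if (M v).Δ ∈ v.asIdeal then (0 : ℂ) else 1)
          * ((Ideal.absNorm v.asIdeal : ℕ) : ℂ) ^ (1 - 2 * s))⁻¹

/-- The formal properties of the L-functions `L(E ⊗ χ, s)`, `χ` an irreducible complex character of the
Galois group `G` of `F/K`: they are analytic for `Re s > 3/2`, have a meromorphic continuation to the plane
and do not vanish identically; for every subgroup `U` of `G` the product of the `L(E ⊗ χ, s) ^ ⟨χ|_U, 1⟩` is,
for `Re s > 3/2`, the Euler product of `E` over the fixed field of `U`; and for every subgroup `U` with a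
surjection `f` onto the quaternion group of order eight the L-function `l` of the twist of `E` over the fixed
field of `U` by the quaternion character satisfies the functional equation `l s = γ s * l (2 - s)` near
`s = 1`, where `γ` is continuous at `1` and `γ 1` is the root number `1` of this symplectic twist. -/
structure TwistFamily (K : Type) [Field K] [NumberField K] (E : WeierstrassCurve K)
    (F : Type) [Field F] [NumberField F] [Algebra K F] where
  /-- the function `L(E ⊗ χ, s)` -/
  L : ((F ≃ₐ[K] F) → ℂ) → ℂ → ℂ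
  analytic : ∀ χ ∈ Irr (F ≃ₐ[K] F), ∀ s : ℂ, (3 / 2 : ℝ) < s.re → AnalyticAt ℂ (L χ) s
  mero : ∀ χ ∈ Irr (F ≃ₐ[K] F), ∀ s : ℂ, MeromorphicAt (L χ) s ∧ meromorphicOrderAt (L χ) s ≠ ⊤
  euler : ∀ (U : Subgroup (F ≃ₐ[K] F)) (m : ((F ≃ₐ[K] F) → ℂ) → ℕ),
    IsDecomp (ind U (fun _ => 1)) m →
    ∀ M : HeightOneSpectrum (𝓞 (IntermediateField.fixedField U)) →
        WeierstrassCurve (𝓞 (IntermediateField.fixedField U)),
      MinimalModels (E.map (algebraMap K (IntermediateField.fixedField U))) M →
        ∀ s : ℂ, (3 / 2 : ℝ) < s.re → ∏ᶠ χ ∈ Irr (F ≃ₐ[K] F), L χ s ^ m χ = LSeries M s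
  symplectic : ∀ (U : Subgroup (F ≃ₐ[K] F)) (f : U →* QuaternionGroup 2), Function.Surjective f →
    ∀ m : ((F ≃ₐ[K] F) → ℂ) → ℕ, IsDecomp (ind U (fun x => quatChar (f x))) m →
      ∃ γ : ℂ → ℂ, ContinuousAt γ 1 ∧ γ 1 = 1 ∧ ∀ᶠ s in 𝓝[≠] (1 : ℂ),
        ∏ᶠ χ ∈ Irr (F ≃ₐ[K] F), L χ s ^ m χ
          = γ s * ∏ᶠ χ ∈ Irr (F ≃ₐ[K] F), L χ (2 - s) ^ m χ

/-- The order at `s = 1` of the L-function of the twist of `E` by the character which contains `χ` with the
multiplicity `m χ`, the product of the `L(E ⊗ χ, s) ^ m χ`. For the multiplicities of the character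
induced from a linear character `ψ` of a subgroup `U` this is the order at `1` of `L(E/F^U ⊗ ψ, s)`. -/
noncomputable def TwistFamily.order {K : Type} [Field K] [NumberField K] {E : WeierstrassCurve K}
    {F : Type} [Field F] [NumberField F] [Algebra K F] (T : TwistFamily K E F)
    (m : ((F ≃ₐ[K] F) → ℂ) → ℕ) : WithTop ℤ :=
  meromorphicOrderAt (fun z => ∏ᶠ χ ∈ Irr (F ≃ₐ[K] F), T.L χ z ^ m χ) 1

/-- The order at `s = 1` of the L-function of `E` over the fixed field of `C (i + 1)` is smaller by at most `r`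
than the one for `C i`, where `⊥ = C 0 ≤ C 1 ≤ … ≤ C t` is a chain of solvable normal subgroups of `G`, and
it is at most `r` for `C t`. For `t = 0`: the order at `s = 1` of the L-function of `E` over `F` is at most
`r`. -/
def TwistFamily.GrowsBy {K : Type} [Field K] [NumberField K] {E : WeierstrassCurve K}
    {F : Type} [Field F] [NumberField F] [Algebra K F] (T : TwistFamily K E F) (r : ℕ) : Prop :=
  ∃ (t : ℕ) (C : ℕ → Subgroup (F ≃ₐ[K] F)), Monotone C ∧ (∀ i, (C i).Normal) ∧ C 0 = ⊥ ∧
    Group.IsSolvable (C t) ∧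
    (∀ i < t, ∀ m m' : ((F ≃ₐ[K] F) → ℂ) → ℕ, IsDecomp (ind (C i) (fun _ => 1)) m →
      IsDecomp (ind (C (i + 1)) (fun _ => 1)) m' → T.order m ≤ T.order m' + (r : WithTop ℤ)) ∧
    (∀ m : ((F ≃ₐ[K] F) → ℂ) → ℕ, IsDecomp (ind (C t) (fun _ => 1)) m →
      T.order m ≤ (r : WithTop ℤ))

/-- Deligne's conjecture at `s = 1` for the twist of `E` by the `k`-valued character `f`, with the periods
`P τ χ`, together with the nonvanishing of the value: the element `e` of `k` is not zero. -/
def TwistFamily.NonzeroValue {K : Type} [Field K] [NumberField K] {E : WeierstrassCurve K}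
    {F : Type} [Field F] [NumberField F] [Algebra K F] (T : TwistFamily K E F) {k : Type} [Field k]
    (P : (k →+* ℂ) → ((F ≃ₐ[K] F) → ℂ) → ℂ) (f : (F ≃ₐ[K] F) → k) : Prop :=
  ∃ e : k, e ≠ 0 ∧ ∀ (τ : k →+* ℂ) (m : ((F ≃ₐ[K] F) → ℂ) → ℕ), IsDecomp (fun g => τ (f g)) m →
    Tendsto (fun s => ∏ᶠ χ ∈ Irr (F ≃ₐ[K] F), T.L χ s ^ m χ) (𝓝[≠] 1)
      (𝓝 (τ e * ∏ᶠ χ ∈ Irr (F ≃ₐ[K] F), P τ χ ^ m χ))

/-- `S` is isomorphic to an alternating group of degree `m ≥ 8` with `r ≤ m - 3`, or `r ≤ m - 2` and `m`
not prime, or to `SL_2(k)` for a finite field `k` of characteristic two with at least `r + 2` elements. -/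
def Factor (r : ℕ) (S : Type) [Group S] : Prop :=
  (∃ m : ℕ, 8 ≤ m ∧ (r + 3 ≤ m ∨ (r + 2 ≤ m ∧ ¬ m.Prime)) ∧
    Nonempty (S ≃* alternatingGroup (Fin m))) ∨
  (∃ (k : Type) (_ : Field k) (_ : Finite k) (_ : CharP k 2), r + 2 ≤ Nat.card k ∧
    Nonempty (S ≃* Matrix.SpecialLinearGroup (Fin 2) k))

/-- The normal subgroup `A` of `Q` is a direct product of finitely many groups with the property `Factor r`,
or it is abelian and every linear character `lam ≠ 1` of `A` has more than `r` different conjugates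
`a ↦ lam (g a g⁻¹)`, `g ∈ Q`. -/
def Layer (r : ℕ) {Q : Type} [Group Q] (A : Subgroup Q) : Prop :=
  (∃ (l : ℕ) (S : Fin l → Type) (_ : ∀ j, Group (S j)),
    (∀ j, Factor r (S j)) ∧ Nonempty (A ≃* ∀ j, S j)) ∨
  ((∀ a ∈ A, ∀ b ∈ A, a * b = b * a) ∧ ∀ lam : A →* ℂˣ, lam ≠ 1 →
    r < {mu : A →* ℂˣ | ∃ g : Q, ∀ a b : A, (b : Q) = g * a * g⁻¹ → mu a = lam b}.ncard)

/-- There is a chain `1 = C 0 ≤ C 1 ≤ … ≤ C t = N` of normal subgroups of `G` such that the image of
`C (i + 1)` in `G / C i` has the property `Layer r`, for `i < t`. -/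
def Built (r : ℕ) {G : Type} [Group G] (N : Subgroup G) : Prop :=
  ∃ (t : ℕ) (C : ℕ → Subgroup G) (_ : ∀ i, (C i).Normal), C 0 = ⊥ ∧ C t = N ∧ Monotone C ∧
    ∀ i < t, Layer r ((C (i + 1)).map (QuotientGroup.mk' (C i)))

end Pool.Agent.Results.MP_cd171c_nt.EllipticCurves

open Pool.Agent.H541R3.ART (Irr)
open Pool.Agent.R389 (ind IsDecomp Deligne AN)
open Pool.Agent.H302R2 (quatChar)
open Pool.Agent.Results.MP_cd171c_nt.EllipticCurves

theorem Pool.Agent.Results.MP_cd171c_nt.EllipticCurves.Factor.finite {r : ℕ} {S : Type} [Group S]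
    (h : Factor r S) : Finite S := by
  rcases h with ⟨m, -, -, ⟨e⟩⟩ | ⟨k, _, _, _, -, ⟨e⟩⟩
  · exact Finite.of_equiv _ e.symm.toEquiv
  · exact Finite.of_equiv _ e.symm.toEquiv

theorem Pool.Agent.Results.MP_cd171c_nt.EllipticCurves.Factor.rigid {r : ℕ} {S : Type} [Group S]
    (h : Factor r S) : Pool.Agent.U143.RG.SRigid r S := by
  have hf := h.finite
  rcases h with ⟨m, hm, hr, ⟨e⟩⟩ | ⟨k, _, _, _, hr, ⟨e⟩⟩
  · exact (Pool.Agent.U143.RG.alt_range hm hr).of_surj e.symm.toMonoidHom e.symm.surjective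
  · exact (Pool.Agent.U143.RG.sl2_rigid hr).of_surj e.symm.toMonoidHom e.symm.surjective

theorem Pool.Agent.Results.MP_cd171c_nt.EllipticCurves.Layer.const {r : ℕ} {Q : Type} [Group Q]
    [Finite Q] {A : Subgroup Q} (hA : A.Normal) (h : Layer r A) {θ : Q → ℂ}
    (hθ : Pool.Agent.H302R3.IsSolHeilbronn θ) {s : ℕ} (hs : s ≤ r) (h1 : θ 1 = s) :
    ∀ n ∈ A, ∀ x, θ (n * x) = θ x := by
  rcases h with ⟨l, S, _, hS, ⟨e⟩⟩ | ⟨hc, ho⟩
  · have hfin : ∀ j, Finite (S j) := fun j => (hS j).finite
    exact Pool.Agent.U143.RG.const_of_prod hθ hs h1 A (fun j => (hS j).rigid)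
      (A.subtype.comp e.symm.toMonoidHom) fun n hn => ⟨e ⟨n, hn⟩, by simp⟩
  · exact Pool.Agent.U143.RG.const_of_orbit hθ hs h1 A hc ho

theorem Pool.Agent.Results.MP_cd171c_nt.EllipticCurves.Built.const {r : ℕ} {G : Type} [Group G]
    [Finite G] {N : Subgroup G} (h : Built r N) {θ : G → ℂ}
    (hθ : Pool.Agent.H302R3.IsSolHeilbronn θ) {s : ℕ} (hs : s ≤ r) (h1 : θ 1 = s) :
    ∀ n ∈ N, ∀ x, θ (n * x) = θ x := by
  obtain ⟨t, C, hn, h0, rfl, -, hl⟩ := h
  exact Pool.Agent.U143.RG.const_chain hθ h1 t C hn h0 fun i hi η hη hη1 =>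
    (hl i hi).const (Subgroup.Normal.map (hn (i + 1)) _ (QuotientGroup.mk'_surjective _)) hη hs hη1

/-- **Deligne's conjecture at `s = 1` for the Artin twists of an elliptic curve.** Let `E` be an elliptic curve
over the number field `K`, `F/K` a finite Galois extension with group `G`, `T` a family of functions with the
formal properties of the L-functions `L(E ⊗ χ, s)`, `k` a number field with a primitive root of unity of order
the exponent of `G`, `P` a family of nonzero periods, and suppose that Deligne's conjecture at `s = 1` holds for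
the twists by the characters induced from the linear characters of the SOLVABLE subgroups of `G` (the twists of
`E` by linear characters over those intermediate fields over which `F` is solvable).

(A) If the order at `s = 1` of `L(E/F, s)`, the product of the `L(E ⊗ χ, s) ^ χ(1)`, is at most two, then
Deligne's conjecture at `s = 1` holds for the twists of `E` by all representations of `G` over `k`.

(B) Suppose that the order at `s = 1` grows by at most `r` along a chain of fields as in
`TwistFamily.GrowsBy` (for example: the order at `s = 1` of `L(E/F, s)` is at most `r`), and let the normal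
subgroup `N` be built from products of groups `A_m`, `SL_2(2^k)` in the range of `r` and from abelian groups
with more than `r` conjugates of each nontrivial character.
* For every representation `ρ` of `G` over `k` without nonzero vectors fixed by `N`, Deligne's conjecture
  holds at `s = 1`, and `L(E ⊗ ρ, 1) ≠ 0`.
* For every subgroup `U` whose image in `G / N` is solvable and every linear character `ψ` of `U` it holds for
  the twist by `Ind_U^G ψ`.
* It holds for all representations of `G` over `k` if it holds for those on which `N` acts trivially, and also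
  if `G / N` has an abelian normal subgroup with nilpotent quotient. -/
theorem Pool.Agent.Results.MP_cd171c_nt.EllipticCurves.result
    (K : Type) [Field K] [NumberField K] (E : WeierstrassCurve K) (_hE : E.IsElliptic)
    (F : Type) [Field F] [NumberField F] [Algebra K F] [IsGalois K F] (T : TwistFamily K E F)
    (k : Type) [Field k] [NumberField k] (ζ : k) (hζ : IsPrimitiveRoot ζ (Monoid.exponent (F ≃ₐ[K] F)))
    (P : (k →+* ℂ) → ((F ≃ₐ[K] F) → ℂ) → ℂ) (hP : ∀ τ, ∀ χ ∈ Irr (F ≃ₐ[K] F), P τ χ ≠ 0)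
    (hmon : ∀ (U : Subgroup (F ≃ₐ[K] F)) (ψ : U →* kˣ), Group.IsSolvable U →
      Deligne (fun _ => T.L) P 1 (ind U (fun u => ((ψ u : kˣ) : k))))
    (deg : ((F ≃ₐ[K] F) → ℂ) → ℕ) (hdeg : ∀ χ ∈ Irr (F ≃ₐ[K] F), χ 1 = deg χ) :
    (T.order deg ≤ 2 →
      ∀ (V : Type) [AddCommGroup V] [Module k V] [FiniteDimensional k V]
        (ρ : Representation k (F ≃ₐ[K] F) V), Deligne (fun _ => T.L) P 1 ρ.character) ∧
    (∀ r : ℕ, T.GrowsBy r → ∀ (N : Subgroup (F ≃ₐ[K] F)) [N.Normal], Built r N →
      (∀ (V : Type) [AddCommGroup V] [Module k V] [FiniteDimensional k V]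
        (ρ : Representation k (F ≃ₐ[K] F) V), (∀ v, (∀ n ∈ N, ρ n v = v) → v = 0) →
        T.NonzeroValue P ρ.character) ∧
      (∀ U : Subgroup (F ≃ₐ[K] F), Group.IsSolvable (U.map (QuotientGroup.mk' N)) →
        ∀ ψ : U →* kˣ, Deligne (fun _ => T.L) P 1 (ind U (fun u => ((ψ u : kˣ) : k)))) ∧
      ((∀ (W : Type) [AddCommGroup W] [Module k W] [FiniteDimensional k W]
          (σ : Representation k (F ≃ₐ[K] F) W), (∀ n ∈ N, ∀ w, σ n w = w) →
          Deligne (fun _ => T.L) P 1 σ.character) →
        ∀ (V : Type) [AddCommGroup V] [Module k V] [FiniteDimensional k V]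
          (ρ : Representation k (F ≃ₐ[K] F) V), Deligne (fun _ => T.L) P 1 ρ.character) ∧
      (AN ((F ≃ₐ[K] F) ⧸ N) →
        ∀ (V : Type) [AddCommGroup V] [Module k V] [FiniteDimensional k V]
          (ρ : Representation k (F ≃ₐ[K] F) V), Deligne (fun _ => T.L) P 1 ρ.character)) := by
  have hG : Finite (F ≃ₐ[K] F) := inferInstance
  obtain ⟨τ₀⟩ : Nonempty (k →+* ℂ) := inferInstance
  have hL : ∀ τ : k →+* ℂ, ∀ χ ∈ Irr (F ≃ₐ[K] F),
      MeromorphicAt ((fun _ : k →+* ℂ => T.L) τ χ) 1 ∧
        meromorphicOrderAt ((fun _ : k →+* ℂ => T.L) τ χ) 1 ≠ ⊤ := fun _ χ hχ => T.mero χ hχ 1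
  refine ⟨fun hz V _ _ _ ρ => ?_, fun r hr N _ hNb => ?_⟩
  · refine Pool.Agent.U143.RG.main_two_sol hζ hL hP hmon τ₀ hdeg hz (fun H f hf m hm h1 => ?_) ρ
    obtain ⟨γ, hγ, hγ1, he⟩ := T.symplectic H f hf m hm
    have h3 := Pool.Agent.R389.order_prod (l := T.L) (c := 1) (fun χ hχ => T.mero χ hχ 1)
      (Pool.Agent.H541R3.ART.irrF (F ≃ₐ[K] F)) subset_rfl (fun χ => (m χ : ℤ))
    have h4 : (fun s => ∏ᶠ χ ∈ Irr (F ≃ₐ[K] F), T.L χ s ^ m χ)
        = fun z => ∏ χ ∈ Pool.Agent.H541R3.ART.irrF (F ≃ₐ[K] F), T.L χ z ^ ((m χ : ℕ) : ℤ) := by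
      funext s
      rw [Pool.Agent.R389.finprod_irr (fun χ => T.L χ s ^ m χ)]
      exact Finset.prod_congr rfl fun χ _ => by rw [zpow_natCast]
    have hmer : MeromorphicAt (fun s => ∏ᶠ χ ∈ Irr (F ≃ₐ[K] F), T.L χ s ^ m χ) 1 := by
      rw [h4]; exact h3.1
    have h5 := Pool.Agent.U143.RG.even_order
      (f := fun s => ∏ᶠ χ ∈ Irr (F ≃ₐ[K] F), T.L χ s ^ m χ) (γ := γ) (c := 1) hmer
      (by rw [h1]; exact WithTop.one_ne_top) hγ hγ1 (by simpa using he)
    rw [h1] at h5
    have h6 : ((1 : WithTop ℤ)).untop₀ = (1 : ℤ) := rfl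
    rw [h6] at h5
    exact absurd h5 (by decide)
  · obtain ⟨t, C, hC, hn, h0, hs, hg, hl⟩ := hr
    have hcos : ∀ n ∈ N, ∀ x, (Pool.Agent.H541R3.ART.theta (Pool.Agent.R389.ords T.L 1) :
        (F ≃ₐ[K] F) → ℂ) (n * x)
          = (Pool.Agent.H541R3.ART.theta (Pool.Agent.R389.ords T.L 1) : (F ≃ₐ[K] F) → ℂ) x := by
      refine Pool.Agent.U143.RG.ords_prop (fun χ hχ => T.mero χ hχ 1)
        (Pool.Agent.U143.RG.nonneg_ords hζ hL hmon τ₀) r t C hC hn h0 hs hg hl
        (fun θ => ∀ n ∈ N, ∀ x, θ (n * x) = θ x) (fun a b ha hb n hn x => ?_)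
        fun η hη s hsr h1 => hNb.const hη hsr h1
      simp only [ha n hn x, hb n hn x]
    have hK : ∀ n ∈ N, (Pool.Agent.H541R3.ART.theta (Pool.Agent.R389.ords T.L 1) :
        (F ≃ₐ[K] F) → ℂ) n
          = (Pool.Agent.H541R3.ART.theta (Pool.Agent.R389.ords T.L 1) : (F ≃ₐ[K] F) → ℂ) 1 :=
      fun n hn => by
        have h := hcos n hn 1
        rwa [mul_one] at h
    have hmonT : ∀ (U : Subgroup (F ≃ₐ[K] F)) (ψ : U →* kˣ), Pool.Agent.R389.Tame U →
        Deligne (fun _ => T.L) P 1 (ind U (fun u => ((ψ u : kˣ) : k))) :=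
      fun U ψ hU => hmon U ψ hU.solvable
    refine ⟨fun V _ _ _ ρ hρ => ?_, fun U hU ψ => ?_, fun hold V _ _ _ ρ => ?_,
      fun hQ V _ _ _ ρ => ?_⟩
    · exact Pool.Agent.U143.RG.new_deligne hζ hL hP hmonT τ₀ N hK ρ hρ
    · exact Pool.Agent.U143.RG.mono_deligne hζ hL hP hmon τ₀ N hK U hU ψ
    · exact Pool.Agent.U143.RG.all_deligne hζ hL hP hmonT τ₀ N hK hold ρ
    · refine Pool.Agent.U143.RG.all_deligne hζ hL hP hmonT τ₀ N hK
        (fun W _ _ _ σ hσ => ?_) ρ
      have hQs : Group.IsSolvable ((F ≃ₐ[K] F) ⧸ N) := Pool.Agent.U143.RG.an_solvable hQ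
      exact Pool.Agent.U143.RG.old_deligne hζ hL hP
        (fun U ψ => Pool.Agent.U143.RG.mono_deligne hζ hL hP hmon τ₀ N hK U
          (Group.isSolvable_of_isSolvable_injective (Subgroup.subtype_injective _)) ψ) τ₀ N hQ σ hσ
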