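import Pool.Agent.U803.DT.Main
import Pool.Agent.U803.DT.Num2

/-!
# Deligne's conjecture for Artin twists in solvable extensions without small frames

Let `F/k` be a Galois extension of number fields with group `G` and let `M` be a motive over `k` (for
instance of odd weight) with coefficients in a number field `E` which contains the roots of unity of
order the exponent of `G`. For every embedding `τ` of `E` and every irreducible complex character `χ` of
`G` there are the component at `τ` of the L-function of the twist of `M` by `χ` (`L τ χ`) and the
component at `τ` of its Deligne period at the critical point `c` (`P τ χ`);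
`Pool.Agent.R389.Deligne L P c f` is the conjecture at `c` for the twist of `M` by the `E`-valued
character `f`: there is one element `e` of `E` such that for every embedding `τ` the value at `c` is
`τ e` times the period at `τ`.

In odd weight the central point is critical, and when there are zeros the conjecture for all twists
does not follow from Brauer's theorem and the monomial case, since the negative multiplicities lead to
quotients `0 / 0`. The starting results for solvable groups need that the order of the zero over the
top field is at most two, or that it is smaller than the least prime divisor of `|G|` (up to the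
multiplicity of one linear character). Here the condition is on the *frames* in the sections of the
group: a frame of degree `d > 1` of a group `X` is a normal subgroup `F` which contains the centre `Z`
of `X`, with `F / Z` abelian of order `d ^ 2` and with centraliser `Z`, where `Z` is cyclic and contains
all abelian normal subgroups of `X` (`Pool.Agent.W446.AS.Frame`). If no section of `G` has a frame of
degree at most the order of the zero, then the conjecture for all Artin twists follows from the abelian
twists. For instance the order of the zero may be

* `2 P - 2` if all prime divisors of the degree are at least `P ≥ 3` (so four in odd degree);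
* `12` if the degree is prime to six;
* `8` if the degree is odd and not divisible by `375 = 5 ^ 3 * 3` (the order of `5 ^ (1 + 2) : 3`, the
  least group of odd order which is not monomial), and `10` if moreover `1215` and `3159` do not
  divide it;
* `3` if the degree is not divisible by `24` and `54`, and `4` if moreover `160` and `224` do not
  divide it.

There is also a relative form over a nonsolvable base: only the extension `F^K / k` has to be solvable,
if `F / F^K` has no new zeros.
-/

set_option autoImplicit false

open Filter Topology

namespace Pool.Agent.Results.MP_cd171c_nt.SolvableNoSmallFrames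

open Pool.Agent.H541R3.ART (Irr)

/-- The L-functions and the periods at the point `c` of the twists of a motive with coefficients in
`E` by the irreducible characters of `G`, for all embeddings of `E`: functions which are meromorphic
and not identically zero near `c`, and nonzero numbers. -/
structure TwistData (G : Type) [Group G] (E : Type) [Field E] where
  /-- the L-function of the twist by `χ` at the embedding `τ` -/
  L : (E →+* ℂ) → (G → ℂ) → ℂ → ℂ
  /-- the period of the twist by `χ` at the embedding `τ` -/
  P : (E →+* ℂ) → (G → ℂ) → ℂ
  /-- the point -/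
  c : ℂ
  mero : ∀ τ, ∀ χ ∈ Irr G, MeromorphicAt (L τ χ) c ∧ meromorphicOrderAt (L τ χ) c ≠ ⊤
  period : ∀ τ, ∀ χ ∈ Irr G, P τ χ ≠ 0

/-- The order at `c`, at the embedding `τ`, of the L-function over the fixed field of the normal
subgroup `K`: the product of the `L τ χ ^ χ(1)` over the irreducible characters `χ` of `G` which are
trivial on `K` (for `K = ⊥`: over the top field). -/
noncomputable def TwistData.order {G : Type} [Group G] {E : Type} [Field E] (D : TwistData G E)
    (τ : E →+* ℂ) (K : Subgroup G) (deg : (G → ℂ) → ℕ) : WithTop ℤ :=
  meromorphicOrderAt (fun s => ∏ᶠ χ ∈ {χ ∈ Irr G | ∀ k ∈ K, χ k = χ 1}, D.L τ χ s ^ deg χ) D.c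

/-- No section of `Q` (quotient `X` of a subgroup) has a frame of degree at most `r`. -/
def NoSmallFrames (r : ℕ) (Q : Type) [Group Q] : Prop :=
  ∀ (H : Subgroup Q) (X : Type) [Group X] (f : H →* X), Function.Surjective f →
    ∀ (F : Subgroup X) (d : ℕ), Pool.Agent.W446.AS.Frame X F d → r < d

/-- Arithmetic conditions on the order `N` of the group and the order `r` of the zero. -/
def SmallOrder (N r : ℕ) : Prop :=
  (∃ P : ℕ, 3 ≤ P ∧ (∀ q, q.Prime → q ∣ N → P ≤ q) ∧ r ≤ 2 * P - 2) ∨
  (N.Coprime 6 ∧ r ≤ 12) ∨
  (Odd N ∧ ¬ 375 ∣ N ∧ r ≤ 8) ∨
  (Odd N ∧ ¬ 375 ∣ N ∧ ¬ 1215 ∣ N ∧ ¬ 3159 ∣ N ∧ r ≤ 10) ∨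
  (¬ 24 ∣ N ∧ ¬ 54 ∣ N ∧ r ≤ 3) ∨
  (¬ 24 ∣ N ∧ ¬ 54 ∣ N ∧ ¬ 160 ∣ N ∧ ¬ 224 ∣ N ∧ r ≤ 4)

end Pool.Agent.Results.MP_cd171c_nt.SolvableNoSmallFrames

open Pool.Agent.H541R3.ART (Irr)
open Pool.Agent.R389 (ind Deligne)
open Pool.Agent.Results.MP_cd171c_nt.SolvableNoSmallFrames

/-- **Deligne's conjecture for Artin twists, solvable extensions without small frames.** Let `E`
contain a primitive root of unity of order the exponent of `G`, and let `K` be a normal subgroup of `G`
with solvable quotient. Suppose that

* Deligne's conjecture at `c` holds for the twists by the characters induced from the linear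
  characters of the subgroups of `G` (the abelian twists over the intermediate fields);
* at one embedding `τ₀` of `E` the order at `c` of the L-function over the top field is at most `r`, and
  at most the order at `c` of the L-function over the fixed field of `K` (no condition if `K = ⊥`);
* no section of `G / K` has a frame of degree at most `r`; or the order of `G / K` and `r` satisfy one
  of the arithmetic conditions `SmallOrder`.

Then Deligne's conjecture at `c` holds for the twists by all representations of `G` over `E`. -/
theorem Pool.Agent.Results.MP_cd171c_nt.SolvableNoSmallFrames.result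
    (G : Type) [Group G] [Finite G] (E : Type) [Field E] (D : TwistData G E)
    (ζ : E) (hζ : IsPrimitiveRoot ζ (Monoid.exponent G))
    (hmon : ∀ (U : Subgroup G) (ψ : U →* Eˣ),
      Deligne D.L D.P D.c (ind U (fun u => ((ψ u : Eˣ) : E))))
    (τ₀ : E →+* ℂ) (deg : (G → ℂ) → ℕ) (hdeg : ∀ χ ∈ Irr G, χ 1 = deg χ)
    (K : Subgroup G) [K.Normal] (hsol : Group.IsSolvable (G ⧸ K)) (r : ℕ)
    (hr : D.order τ₀ ⊥ deg ≤ r) (hz : D.order τ₀ ⊥ deg ≤ D.order τ₀ K deg)
    (hframes : NoSmallFrames r (G ⧸ K) ∨ SmallOrder (Nat.card (G ⧸ K)) r)
    (V : Type) [AddCommGroup V] [Module E V] [FiniteDimensional E V] (ρ : Representation E G V) :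
    Deligne D.L D.P D.c ρ.character := by
  classical
  have hnf : Pool.Agent.U803.DT.NF {1} r (G ⧸ K) := by
    rcases hframes with h | h | h | h | h | h | h
    · intro H X _ f hf F d hF
      rw [Set.image_singleton, Set.ncard_singleton, mul_one]
      exact h H X f hf F d hF
    · obtain ⟨P, hP, hPN, hr⟩ := h
      exact Pool.Agent.U803.DT.nf_one fun p n q i hd => hd.least hP hPN hr
    · exact Pool.Agent.U803.DT.nf_one fun p n q i hd => hd.six h.1 h.2
    · exact Pool.Agent.U803.DT.nf_one fun p n q i hd => hd.eight h.1 h.2.1 h.2.2
    · exact Pool.Agent.U803.DT.nf_one fun p n q i hd =>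
        hd.ten h.1 h.2.1 h.2.2.1 h.2.2.2.1 h.2.2.2.2
    · exact Pool.Agent.U803.DT.nf_one fun p n q i hd => hd.gen3 h.1 h.2.1 h.2.2
    · exact Pool.Agent.U803.DT.nf_one fun p n q i hd =>
        hd.gen4 h.1 h.2.1 h.2.2.1 h.2.2.2.1 h.2.2.2.2
  have hset : {χ ∈ Irr G | ∀ k ∈ (⊥ : Subgroup G), χ k = χ 1} = Irr G := by
    ext χ
    refine ⟨fun h => h.1, fun h => ⟨h, fun k hk => ?_⟩⟩
    rw [Subgroup.mem_bot.mp hk]
  have hbot : D.order τ₀ ⊥ deg
      = meromorphicOrderAt (fun s => ∏ᶠ χ ∈ Irr G, D.L τ₀ χ s ^ deg χ) D.c := by
    rw [TwistData.order, hset]
  rw [hbot] at hr hz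
  refine Pool.Agent.U803.DT.main_frames hζ D.mero D.period hmon τ₀ hdeg K hsol (S := {1}) (r := r)
    (fun k hk => ?_) hnf Pool.Agent.U803.DT.supp_one (by exact_mod_cast hr) hz ρ
  rw [Set.mem_singleton_iff.mp hk]
  exact Nat.coprime_one_left _
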